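import Pool.Agent.V1155.WNC

set_option autoImplicit false

namespace Pool.Agent.Results.MP_2093e0_al.SemiPotentWUU

open Pool.Agent.V1155.WNC

universe u

theorem result (R : Type u) [Ring R] : SWNC R ↔ (SemiPotent R ∧ WUU R) := main R

end Pool.Agent.Results.MP_2093e0_al.SemiPotentWUU
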